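import Pool.Agent.Helper46.NU.DfnT

/-! # MP_1fe1ca_lc: packet SYI, injections between definable classes -/

noncomputable section

namespace NU.PkSYI

open Pool.Agent.Helper97.Ku

theorem syi : G_SYI := by
  intro m P Q PV QV hN hL hP hQ
  have hP0 : ∀ (N : Type 1) (E : N → N → Prop) (w : ℕ → N) (x : N),
      P N E (Function.update w m x) = P N E w := fun N E w x =>
    (hN N E (Function.update w m x) w fun i hi => by
      have hne : i ≠ m := by omega
      rw [Function.update_of_ne hne]).1
  have hP1 : ∀ (N : Type 1) (E : N → N → Prop) (w : ℕ → N) (k : ℕ) (x : N),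
      P N E (Function.update w (m + k) x) = P N E w := fun N E w k x =>
    (hN N E (Function.update w (m + k) x) w fun i hi => by
      have hne : i ≠ m + k := by omega
      rw [Function.update_of_ne hne]).1
  have hQ0 : ∀ (N : Type 1) (E : N → N → Prop) (w : ℕ → N) (x : N),
      Q N E (Function.update w m x) = Q N E w := fun N E w x =>
    (hN N E (Function.update w m x) w fun i hi => by
      have hne : i ≠ m := by omega
      rw [Function.update_of_ne hne]).2
  have hQ1 : ∀ (N : Type 1) (E : N → N → Prop) (w : ℕ → N) (k : ℕ) (x : N),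
      Q N E (Function.update w (m + k) x) = Q N E w := fun N E w k x =>
    (hN N E (Function.update w (m + k) x) w fun i hi => by
      have hne : i ≠ m + k := by omega
      rw [Function.update_of_ne hne]).2
  have hV0 : ∀ (L : Type) [CompleteBooleanAlgebra L] (w : ℕ → BSet L) (x : BSet L),
      PV L (Function.update w m x) = PV L w := fun L _ w x =>
    (hL L (Function.update w m x) w fun i hi => by
      have hne : i ≠ m := by omega
      rw [Function.update_of_ne hne]).1
  have hV1 : ∀ (L : Type) [CompleteBooleanAlgebra L] (w : ℕ → BSet L) (k : ℕ) (x : BSet L),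
      PV L (Function.update w (m + k) x) = PV L w := fun L _ w k x =>
    (hL L (Function.update w (m + k) x) w fun i hi => by
      have hne : i ≠ m + k := by omega
      rw [Function.update_of_ne hne]).1
  have hW0 : ∀ (L : Type) [CompleteBooleanAlgebra L] (w : ℕ → BSet L) (x : BSet L),
      QV L (Function.update w m x) = QV L w := fun L _ w x =>
    (hL L (Function.update w m x) w fun i hi => by
      have hne : i ≠ m := by omega
      rw [Function.update_of_ne hne]).2
  have hW1 : ∀ (L : Type) [CompleteBooleanAlgebra L] (w : ℕ → BSet L) (k : ℕ) (x : BSet L),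
      QV L (Function.update w (m + k) x) = QV L w := fun L _ w k x =>
    (hL L (Function.update w (m + k) x) w fun i hi => by
      have hne : i ≠ m + k := by omega
      rw [Function.update_of_ne hne]).2
  have hap : ∀ j k : ℕ, j < 5 → k < 5 → Dfn (fun _ E w => Ap E (w m) (w (m + j)) (w (m + k)))
      (fun _ _ w => apV (w m) (w (m + j)) (w (m + k))) := fun j k hj hk =>
    Dfn.ap m (m + j) (m + k) (m + 5) (m + 6) (m + 7) (by omega) (by omega) (by omega) (by omega)
      (by omega) (by omega) (by omega) (by omega) (by omega) (by omega)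
  have D1 := Dfn.imp (hP (m + 1)) (Dfn.ex (m + 2) (Dfn.and (hQ (m + 2))
    (Dfn.all (m + 3) (Dfn.iff (hap 1 3 (by omega) (by omega)) (Dfn.eq (m + 3) (m + 2))))))
  have D2 := Dfn.imp (Dfn.and (hP (m + 1)) (Dfn.and (hP (m + 4))
    (Dfn.and (hap 1 2 (by omega) (by omega)) (hap 4 2 (by omega) (by omega)))))
    (Dfn.eq (m + 1) (m + 4))
  have D := Dfn.ex m (Dfn.and (Dfn.all (m + 1) D1)
    (Dfn.all (m + 1) (Dfn.all (m + 4) (Dfn.all (m + 2) D2))))
  refine Dfn.congr D ?_ ?_
  · intro N E w
    simp [Inj, hP0, hP1, hQ0, hQ1]
  · intro L _ w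
    simp [injV, hV0, hV1, hW0, hW1]

end NU.PkSYI
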